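import Pool.Agent.P.MP_6c54ca_co.HomC

namespace Pool.Agent.Results.MP_6c54ca_co.DigitBound

/-- A lower bound for Sidon sets in `ℤ_k^r`, `k = p m` with `p` an odd prime. -/
theorem result (p m r : ℕ) (hp : p.Prime) (hp2 : p ≠ 2) (ts : List ℕ)
    (hts : ∀ t ∈ ts, 1 ≤ t ∧ t ≤ p) (hm : (ts.map fun t => 2 * t - 1).prod ≤ m) :
    ∃ A : Finset (Fin r → ZMod (p * m)),
      (∀ a ∈ A, ∀ b ∈ A, ∀ c ∈ A, ∀ d ∈ A,
        a + b = c + d → (a = c ∧ b = d) ∨ (a = d ∧ b = c)) ∧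
      (p * ts.prod) ^ r ≤ 8 * p ^ 2 * A.card ^ 2 := by
  refine Pool.Agent.P.MP_6c54ca_co.Od.main hp hp2 ts hts (lt_of_lt_of_le (List.prod_pos ?_) hm) hm r
  intro x hx
  obtain ⟨t, ht, rfl⟩ := List.mem_map.mp hx
  have := (hts t ht).1
  omega

end Pool.Agent.Results.MP_6c54ca_co.DigitBound
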