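import Pool.Agent.P.MP_6c54ca_co.SqA

namespace Pool.Agent.Results.MP_6c54ca_co.PrimeSq

open Pool.Agent.P.MP_6c54ca_co.Od

/-- `ℤ_9^r` and `ℤ_25^r` contain Sidon sets of size `(3^r - 1)/2` and `(5^r - 1)/10`. -/
theorem result (p : ℕ) (hp : p = 3 ∨ p = 5) (r : ℕ) :
    ∃ A : Finset (Fin r → ZMod (p ^ 2)),
      (∀ a ∈ A, ∀ b ∈ A, ∀ c ∈ A, ∀ d ∈ A,
        a + b = c + d → (a = c ∧ b = d) ∨ (a = d ∧ b = c)) ∧
      p ^ r ≤ (4 * p - 10) * A.card + 1 := by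
  rcases Nat.eq_zero_or_pos r with rfl | hr
  · exact ⟨∅, by simp, by simp⟩
  · rcases hp with rfl | rfl
    · exact nine r hr.ne'
    · exact twentyfive r hr.ne'

end Pool.Agent.Results.MP_6c54ca_co.PrimeSq
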