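import Pool.Agent.P.MP_6c54ca_co.SixC

namespace Pool.Agent.Results.MP_6c54ca_co.SixFour

/-- Every Sidon set in `ℤ_6^4` has fewer than `36 = 6^(4/2)` elements. -/
theorem result (A : Finset (Fin 4 → ZMod 6))
    (hA : ∀ a ∈ A, ∀ b ∈ A, ∀ c ∈ A, ∀ d ∈ A,
      a + b = c + d → (a = c ∧ b = d) ∨ (a = d ∧ b = c)) :
    A.card < 6 ^ (4 / 2) :=
  Pool.Agent.P.MP_6c54ca_co.Six.main A hA

end Pool.Agent.Results.MP_6c54ca_co.SixFour
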