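import Pool.Agent.P.MP_6c54ca_co.Final

namespace Pool.Agent.Results.MP_6c54ca_co.UpTo13

/-- `A` is a Sidon set: sums `a + b` (repeated terms allowed) are distinct up to order. -/
def IsSidon {G : Type} [AddCommGroup G] (A : Finset G) : Prop :=
  ∀ a ∈ A, ∀ b ∈ A, ∀ c ∈ A, ∀ d ∈ A, a + b = c + d → (a = c ∧ b = d) ∨ (a = d ∧ b = c)

/-- For `1 ≤ k ≤ 13` the largest Sidon set in `ℤ_k × ℤ_k` has size `k - 1` if
`k ∈ {2, 8, 9, 10, 12}` and size `k` otherwise. -/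
theorem result (k : ℕ) (h1 : 1 ≤ k) (h2 : k ≤ 13) :
    IsGreatest {m : ℕ | ∃ A : Finset (ZMod k × ZMod k), IsSidon A ∧ A.card = m}
      (if k ∈ ({2, 8, 9, 10, 12} : Finset ℕ) then k - 1 else k) :=
  Pool.Agent.P.MP_6c54ca_co.main k h1 h2

end Pool.Agent.Results.MP_6c54ca_co.UpTo13
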